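import Mathlib

/-!
# Project TS, Part I, block E: counting finite sets of naturals with bounded sum
-/

set_option autoImplicit false

open Finset

namespace TS.E

/-- finite subsets of `{0,…,n}` with sum at most `n` and at most `u` elements -/
def sets (n u : ℕ) : Finset (Finset ℕ) :=
  (range (n+1)).powerset.filter (fun B => B.card ≤ u ∧ ∑ b ∈ B, b ≤ n)

theorem mem_sets {n u : ℕ} {B : Finset ℕ} (hc : B.card ≤ u) (hs : ∑ b ∈ B, b ≤ n) :
    B ∈ sets n u := by
  rw [sets, mem_filter, mem_powerset]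
  refine ⟨?_, hc, hs⟩
  intro b hb
  rw [mem_range]
  have := single_le_sum (f := fun b => b) (fun i _ => Nat.zero_le i) hb
  omega

/-- generating function bound -/
theorem card_sets_le (n u : ℕ) (t z : ℝ) (ht : 0 < t) (hz : 0 < z) (hz1 : z ≤ 1) :
    ((sets n u).card : ℝ) ≤ Real.exp (t * n) * (z⁻¹) ^ u * Real.exp (z / (1 - Real.exp (-t))) := by
  have hq0 : 0 < Real.exp (-t) := Real.exp_pos _
  have hq1 : Real.exp (-t) < 1 := by
    rw [Real.exp_lt_one_iff]; linarith
  -- each set contributes at least one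
  have h1 : ∀ B ∈ sets n u, (1:ℝ) ≤ Real.exp (t * n) * (z⁻¹) ^ u *
      ∏ b ∈ B, (z * Real.exp (-t) ^ b) := by
    intro B hB
    rw [sets, mem_filter] at hB
    obtain ⟨_, hc, hs⟩ := hB
    rw [prod_mul_distrib, prod_const, prod_pow_eq_pow_sum]
    have e1 : Real.exp (-t) ^ (∑ b ∈ B, b) = Real.exp (-(t * ((∑ b ∈ B, b : ℕ) : ℝ))) := by
      rw [← Real.exp_nat_mul]; congr 1; push_cast; ring
    rw [e1]
    have e2 : Real.exp (t * n) * (z⁻¹) ^ u * (z ^ B.card * Real.exp (-(t * ((∑ b ∈ B, b : ℕ) : ℝ))))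
        = (Real.exp (t * n) * Real.exp (-(t * ((∑ b ∈ B, b : ℕ) : ℝ)))) * ((z⁻¹) ^ u * z ^ B.card) := by
      ring
    rw [e2, ← Real.exp_add]
    have e3 : (1:ℝ) ≤ Real.exp (t * n + -(t * ((∑ b ∈ B, b : ℕ) : ℝ))) := by
      apply Real.one_le_exp
      have : ((∑ b ∈ B, b : ℕ) : ℝ) ≤ n := by exact_mod_cast hs
      nlinarith
    have e4 : (1:ℝ) ≤ (z⁻¹) ^ u * z ^ B.card := by
      have hz' : 1 ≤ z⁻¹ := (one_le_inv₀ hz).mpr hz1
      obtain ⟨d, rfl⟩ := Nat.exists_eq_add_of_le hc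
      rw [pow_add, mul_assoc, mul_comm _ (z ^ B.card), ← mul_assoc, ← mul_pow,
        inv_mul_cancel₀ hz.ne', one_pow, one_mul]
      exact one_le_pow₀ hz'
    calc (1:ℝ) = 1 * 1 := (one_mul 1).symm
      _ ≤ _ := mul_le_mul e3 e4 zero_le_one (by positivity)
  calc ((sets n u).card : ℝ) = ∑ B ∈ sets n u, (1:ℝ) := by simp
    _ ≤ ∑ B ∈ sets n u, Real.exp (t * n) * (z⁻¹) ^ u * ∏ b ∈ B, (z * Real.exp (-t) ^ b) :=
        sum_le_sum h1
    _ ≤ ∑ B ∈ (range (n+1)).powerset, Real.exp (t * n) * (z⁻¹) ^ u *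
          ∏ b ∈ B, (z * Real.exp (-t) ^ b) := by
        apply sum_le_sum_of_subset_of_nonneg (filter_subset _ _)
        intro B _ _
        have : 0 ≤ ∏ b ∈ B, (z * Real.exp (-t) ^ b) := prod_nonneg (fun b _ => by positivity)
        positivity
    _ = Real.exp (t * n) * (z⁻¹) ^ u * ∏ b ∈ range (n+1), (z * Real.exp (-t) ^ b + 1) := by
        rw [← mul_sum]
        congr 1
        rw [prod_add]
        apply sum_congr rfl
        intro B _
        simp
    _ ≤ Real.exp (t * n) * (z⁻¹) ^ u * Real.exp (z / (1 - Real.exp (-t))) := by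
        apply mul_le_mul_of_nonneg_left _ (by positivity)
        calc ∏ b ∈ range (n+1), (z * Real.exp (-t) ^ b + 1)
            ≤ ∏ b ∈ range (n+1), Real.exp (z * Real.exp (-t) ^ b) :=
              prod_le_prod (fun b _ => by positivity) (fun b _ => Real.add_one_le_exp _)
          _ = Real.exp (∑ b ∈ range (n+1), z * Real.exp (-t) ^ b) := (Real.exp_sum _ _).symm
          _ ≤ Real.exp (z / (1 - Real.exp (-t))) := by
              apply Real.exp_le_exp.mpr
              rw [← mul_sum, div_eq_mul_inv]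
              apply mul_le_mul_of_nonneg_left _ hz.le
              rw [geom_sum_eq hq1.ne, ← neg_div_neg_eq, neg_sub, neg_sub, ← one_div]
              apply div_le_div_of_nonneg_right _ (by linarith)
              have : 0 < Real.exp (-t) ^ (n+1) := by positivity
              linarith

/-- `1/(1-e^{-t}) ≤ 1 + 1/t` -/
theorem inv_one_sub_exp_le (t : ℝ) (ht : 0 < t) : 1 / (1 - Real.exp (-t)) ≤ 1 + 1 / t := by
  have h1 : t + 1 ≤ Real.exp t := Real.add_one_le_exp t
  have h2 : Real.exp (-t) ≤ 1 / (1 + t) := by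
    rw [Real.exp_neg, ← one_div]
    exact one_div_le_one_div_of_le (by linarith) (by linarith)
  have h3 : t / (1 + t) ≤ 1 - Real.exp (-t) := by
    have : 1 - 1 / (1 + t) = t / (1 + t) := by field_simp; ring
    linarith
  calc 1 / (1 - Real.exp (-t)) ≤ 1 / (t / (1 + t)) :=
        one_div_le_one_div_of_le (by positivity) h3
    _ = 1 + 1 / t := by field_simp; ring

/-- the number of finite sets of naturals with sum at most `n` -/
theorem card_sets_sqrt (n u : ℕ) (hn : 1 ≤ n) :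
    ((sets n u).card : ℝ) ≤ Real.exp (2 * Real.sqrt n + 1) := by
  have hn' : (1:ℝ) ≤ n := by exact_mod_cast hn
  have hs : 0 < Real.sqrt n := Real.sqrt_pos.mpr (by linarith)
  have hss : Real.sqrt n * Real.sqrt n = n := Real.mul_self_sqrt (by linarith)
  have h := card_sets_le n u (1 / Real.sqrt n) 1 (by positivity) one_pos le_rfl
  rw [inv_one, one_pow, mul_one, ← Real.exp_add] at h
  refine h.trans (Real.exp_le_exp.mpr ?_)
  have h2 := inv_one_sub_exp_le (1 / Real.sqrt n) (by positivity)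
  have h3 : 1 / Real.sqrt n * (n:ℝ) = Real.sqrt n := by
    rw [one_div, inv_mul_eq_div, div_eq_iff hs.ne', hss]
  rw [one_div_one_div] at h2
  rw [h3]
  linarith

/-- the number of finite sets of naturals with sum at most `n` and few elements -/
theorem card_sets_few (n u : ℕ) (ε c : ℝ) (hn : 1 ≤ n) (hε : 0 < ε) (hε1 : ε ≤ 1)
    (hu : (u : ℝ) ≤ c * Real.sqrt n) :
    ((sets n u).card : ℝ) ≤
      Real.exp ((2 * ε + 2 * c * Real.log (1 / ε)) * Real.sqrt n + ε ^ 2) := by
  have hn' : (1:ℝ) ≤ n := by exact_mod_cast hn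
  have hs : 0 < Real.sqrt n := Real.sqrt_pos.mpr (by linarith)
  have hss : Real.sqrt n * Real.sqrt n = n := Real.mul_self_sqrt (by linarith)
  have h := card_sets_le n u (ε / Real.sqrt n) (ε ^ 2) (by positivity) (by positivity)
    (pow_le_one₀ hε.le hε1)
  refine h.trans ?_
  have hl : 0 ≤ Real.log (1 / ε) := Real.log_nonneg (by rw [le_div_iff₀ hε]; linarith)
  have e1 : ((ε ^ 2)⁻¹) ^ u = Real.exp (2 * u * Real.log (1 / ε)) := by
    rw [one_div, Real.log_inv, ← Real.exp_log (show 0 < ((ε ^ 2)⁻¹) ^ u by positivity),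
      Real.log_pow, Real.log_inv, Real.log_pow]
    congr 1
    push_cast
    ring
  rw [e1, ← Real.exp_add, ← Real.exp_add]
  apply Real.exp_le_exp.mpr
  have h2 := inv_one_sub_exp_le (ε / Real.sqrt n) (by positivity)
  have h3 : ε / Real.sqrt n * (n:ℝ) = ε * Real.sqrt n := by
    rw [div_mul_eq_mul_div, div_eq_iff hs.ne', mul_assoc, hss]
  have h4 : ε ^ 2 / (1 - Real.exp (-(ε / Real.sqrt n))) ≤ ε ^ 2 + ε * Real.sqrt n := by
    rw [div_eq_mul_one_div]
    calc ε ^ 2 * (1 / (1 - Real.exp (-(ε / Real.sqrt n))))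
        ≤ ε ^ 2 * (1 + 1 / (ε / Real.sqrt n)) := mul_le_mul_of_nonneg_left h2 (by positivity)
      _ = ε ^ 2 + ε * Real.sqrt n := by field_simp
  have h5 : 2 * (u:ℝ) * Real.log (1 / ε) ≤ 2 * (c * Real.sqrt n) * Real.log (1 / ε) := by
    apply mul_le_mul_of_nonneg_right _ hl
    linarith
  rw [h3]
  nlinarith

end TS.E
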